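import Pool.Agent.W945.Lc.Stm2

namespace Pool.Agent.W945.Lc.BLKNx

open Pool.Agent.W945.Lc

/-- table bound -/
def Tb (l : ℕ) (p a : ℝ) : Prop :=
  ∃ k : ℕ, k ≤ 2 ^ l ∧ (2 : ℝ) ^ l * p = k ∧ tabA l k ≠ 0 ∧ (2 : ℝ) ^ l * a ≤ tabA l k

theorem rho_eq : rho = 103 / 80 := rfl

theorem tb_neg (hT : TABA.Stm) {l : ℕ} (hl : l ≤ 10) {p a : ℝ} (hp : p < 1) (hpa : p ≤ a)
    (h : Tb l p a) : Tb l (1 - p) (1 - 2 * p + a) := by
  obtain ⟨k, h1, h2, h3, h4⟩ := h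
  have hb := hT.2.1 l (by omega) k (by omega) h3
  have h2l : (0 : ℝ) < 2 ^ l := by positivity
  have hk : (k : ℝ) < 2 ^ l := by
    rw [← h2]; nlinarith
  have hkA : (k : ℝ) ≤ tabA l k := by
    rw [← h2]; nlinarith
  have hkA' : k ≤ tabA l k := by exact_mod_cast hkA
  have hk' : k < 2 ^ l := by exact_mod_cast hk
  refine ⟨2 ^ l - k, Nat.sub_le _ _, ?_, by omega, ?_⟩
  · rw [Nat.cast_sub h1]; push_cast; rw [mul_sub, h2]; ring
  · have hb' : (2 : ℝ) ^ l + tabA l k ≤ tabA l (2 ^ l - k) + 2 * k := by exact_mod_cast hb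
    have e : (2 : ℝ) ^ l * (1 - 2 * p + a) = 2 ^ l - 2 * (2 ^ l * p) + 2 ^ l * a := by ring
    rw [e, h2]
    linarith

theorem tb_mul (hT : TABA.Stm) {l m : ℕ} (hl : 1 ≤ l) (hm : 1 ≤ m) (hlm : l + m ≤ 10)
    {p a q b : ℝ} (ha : 0 ≤ a) (h : Tb l p a) (h' : Tb m q b) : Tb (l + m) (p * q) (a * b) := by
  obtain ⟨k, h1, h2, h3, h4⟩ := h
  obtain ⟨j, g1, g2, g3, g4⟩ := h'
  have hc := hT.2.2.1 l (by omega) m (by omega) hl hm hlm k (by omega) j (by omega) h3 g3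
  refine ⟨k * j, ?_, ?_, ?_, ?_⟩
  · rw [pow_add]; exact Nat.mul_le_mul h1 g1
  · push_cast; rw [← h2, ← g2, pow_add]; ring
  · have : 0 < tabA l k * tabA m j := Nat.mul_pos (Nat.pos_of_ne_zero h3) (Nat.pos_of_ne_zero g3)
    omega
  · have hc' : (tabA l k : ℝ) * tabA m j ≤ tabA (l + m) (k * j) := by exact_mod_cast hc
    refine le_trans ?_ hc'
    have e : (2 : ℝ) ^ (l + m) * (a * b) = (2 ^ l * a) * (2 ^ m * b) := by rw [pow_add]; ring
    rw [e]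
    have h5 : (2 : ℝ) ^ l * a * (2 ^ m * b) ≤ 2 ^ l * a * tabA m j :=
      mul_le_mul_of_nonneg_left g4 (by positivity)
    exact h5.trans (mul_le_mul_of_nonneg_right h4 (by positivity))

theorem tb_bound (hT : TABA.Stm) {l : ℕ} (hl1 : 1 ≤ l) (hl : l ≤ 10) {p a : ℝ} (h : Tb l p a) :
    a ≤ 905 / 1000 * rho ^ l ∧ (5 ≤ l → a ≤ 8 / 10 * rho ^ l) := by
  obtain ⟨k, h1, h2, h3, h4⟩ := h
  have h2l : (0 : ℝ) < 2 ^ l := by positivity
  have h80 : (0 : ℝ) < 80 ^ l := by positivity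
  have er : rho ^ l = 103 ^ l / 80 ^ l := by rw [rho_eq, div_pow]
  have key : ∀ u v : ℝ, 0 < v → v * 80 ^ l * tabA l k ≤ u * 2 ^ l * 103 ^ l →
      a ≤ u / v * rho ^ l := by
    intro u v hv huv
    rw [er, div_mul_div_comm, le_div_iff₀ (by positivity)]
    have h5 : (2 : ℝ) ^ l * (a * (v * 80 ^ l)) ≤ 2 ^ l * (u * 103 ^ l) := by
      calc (2 : ℝ) ^ l * (a * (v * 80 ^ l)) = (2 ^ l * a) * (v * 80 ^ l) := by ring
        _ ≤ tabA l k * (v * 80 ^ l) := mul_le_mul_of_nonneg_right h4 (by positivity)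
        _ = v * 80 ^ l * tabA l k := by ring
        _ ≤ u * 2 ^ l * 103 ^ l := huv
        _ = 2 ^ l * (u * 103 ^ l) := by ring
    exact le_of_mul_le_mul_left h5 h2l
  by_cases h5 : 5 ≤ l
  · have he := hT.2.2.2.2 l (by omega) h5 k (by omega)
    have he' : (10 : ℝ) * 80 ^ l * tabA l k ≤ 8 * 2 ^ l * 103 ^ l := by exact_mod_cast he
    have h6 := key 8 10 (by norm_num) he'
    refine ⟨h6.trans (mul_le_mul_of_nonneg_right (by norm_num) (by rw [er]; positivity)),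
      fun _ => h6⟩
  · have hd := (hT.2.2.2.1 l (by omega) hl1 k (by omega) h3).2
    have hd' : (1000 : ℝ) * 80 ^ l * tabA l k ≤ 905 * 2 ^ l * 103 ^ l := by exact_mod_cast hd
    exact ⟨key 905 1000 (by norm_num) hd', fun h => absurd h h5⟩

theorem tb_S1 (hT : TABA.Stm) {l : ℕ} (hl1 : 1 ≤ l) (hl : l ≤ 4) {p a : ℝ} (h : Tb l p a) :
    a + (1 - 2 * p + a) * rho ^ 2 ≤ rho ^ (l + 3) := by
  obtain ⟨k, h1, h2, h3, h4⟩ := h
  have hd := (hT.2.2.2.1 l (by omega) hl1 k (by omega) h3).1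
  have hd' : (80 : ℝ) ^ (l + 3) * tabA l k + 80 ^ (l + 1) * 103 ^ 2 * (2 ^ l + tabA l k) ≤
      2 ^ l * 103 ^ (l + 3) + 80 ^ (l + 1) * 103 ^ 2 * (2 * k) := by exact_mod_cast hd
  have er : rho ^ (l + 3) = 103 ^ (l + 3) / 80 ^ (l + 3) := by rw [rho_eq, div_pow]
  rw [er, le_div_iff₀ (by positivity)]
  have h2l : (0 : ℝ) < 2 ^ l := by positivity
  refine le_of_mul_le_mul_left ?_ h2l
  have e80 : (80 : ℝ) ^ (l + 3) = 80 ^ (l + 1) * 80 ^ 2 := by rw [← pow_add]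
  have e1 : (2 : ℝ) ^ l * ((a + (1 - 2 * p + a) * rho ^ 2) * 80 ^ (l + 3)) =
      (2 ^ l * a) * 80 ^ (l + 3) +
        (2 ^ l - 2 * (2 ^ l * p) + 2 ^ l * a) * (80 ^ (l + 1) * 103 ^ 2) := by
    rw [rho_eq, e80]; ring
  rw [e1, h2]
  have h5 : (2 ^ l * a) * (80 : ℝ) ^ (l + 3) ≤ tabA l k * 80 ^ (l + 3) :=
    mul_le_mul_of_nonneg_right h4 (by positivity)
  have h6 : (2 ^ l - 2 * (k : ℝ) + 2 ^ l * a) * ((80 : ℝ) ^ (l + 1) * 103 ^ 2) ≤
      (2 ^ l - 2 * (k : ℝ) + tabA l k) * (80 ^ (l + 1) * 103 ^ 2) :=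
    mul_le_mul_of_nonneg_right (by linarith) (by positivity)
  have e2 : (2 ^ l - 2 * (k : ℝ) + tabA l k) * ((80 : ℝ) ^ (l + 1) * 103 ^ 2) =
      80 ^ (l + 1) * 103 ^ 2 * (2 ^ l + tabA l k) - 80 ^ (l + 1) * 103 ^ 2 * (2 * k) := by ring
  rw [e2] at h6
  have e3 : (tabA l k : ℝ) * 80 ^ (l + 3) = 80 ^ (l + 3) * tabA l k := by ring
  rw [e3] at h5
  linarith

/-- the invariant -/
def Good (l : ℕ) (p a : ℝ) : Prop :=
  1 ≤ l ∧ 0 < p ∧ p < 1 ∧ p ≤ a ∧ (l ≤ 10 → Tb l p a) ∧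
    (a ≤ 905 / 1000 * rho ^ l ∧ 1 - 2 * p + a ≤ 905 / 1000 * rho ^ l) ∧
    (5 ≤ l → a ≤ 8 / 10 * rho ^ l ∧ 1 - 2 * p + a ≤ 8 / 10 * rho ^ l)

theorem good_of_tb (hT : TABA.Stm) {l : ℕ} (hl1 : 1 ≤ l) (hl : l ≤ 10) {p a : ℝ} (hp0 : 0 < p)
    (hp : p < 1) (hpa : p ≤ a) (h : Tb l p a) : Good l p a := by
  have h1 := tb_bound hT hl1 hl h
  have h2 := tb_bound hT hl1 hl (tb_neg hT hl hp hpa h)
  exact ⟨hl1, hp0, hp, hpa, fun _ => h, ⟨h1.1, h2.1⟩, fun h5 => ⟨h1.2 h5, h2.2 h5⟩⟩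

theorem rho_pow_ge {t : ℕ} (ht : 11 ≤ t) : 1 ≤ 76 / 1000 * rho ^ t := by
  have h1 : rho ^ 11 ≤ rho ^ t := pow_le_pow_right₀ (by rw [rho_eq]; norm_num) ht
  have h2 : (1 : ℝ) ≤ 76 / 1000 * rho ^ 11 := by rw [rho_eq]; norm_num
  linarith

theorem good (hT : TABA.Stm) {l : ℕ} {p a : ℝ} (h : Blk l p a) : Good l p a := by
  induction h with
  | leaf =>
    apply good_of_tb hT (le_refl 1) (by norm_num) (by norm_num) (by norm_num) (by norm_num)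
    have h2 := hT.1
    refine ⟨1, by norm_num, by norm_num, by omega, ?_⟩
    have : (2 : ℝ) ≤ tabA 1 1 := by exact_mod_cast h2
    linarith
  | @neg l p a _ ih =>
    obtain ⟨h1, h2, h3, h4, h5, h6, h7⟩ := ih
    have e : 1 - 2 * (1 - p) + (1 - 2 * p + a) = a := by ring
    refine ⟨h1, by linarith, by linarith, by linarith, fun hl => tb_neg hT hl h3 h4 (h5 hl), ?_, ?_⟩
    · rw [e]; exact ⟨h6.2, h6.1⟩
    · intro hl; rw [e]; exact ⟨(h7 hl).2, (h7 hl).1⟩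
  | @mul l m p q a b _ _ ih ih' =>
    obtain ⟨h1, h2, h3, h4, h5, h6, h7⟩ := ih
    obtain ⟨g1, g2, g3, g4, g5, g6, g7⟩ := ih'
    have hpq0 : 0 < p * q := mul_pos h2 g2
    have hpq1 : p * q < 1 := by nlinarith
    have ha : 0 < a := by linarith
    have hb : 0 < b := by linarith
    have hpqa : p * q ≤ a * b := mul_le_mul h4 g4 g2.le ha.le
    by_cases hlm : l + m ≤ 10
    · exact good_of_tb hT (by omega) hlm hpq0 hpq1 hpqa
        (tb_mul hT h1 g1 hlm ha.le (h5 (by omega)) (g5 (by omega)))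
    · have hr : (0 : ℝ) < rho ^ l := by rw [rho_eq]; positivity
      have hr' : (0 : ℝ) < rho ^ m := by rw [rho_eq]; positivity
      have hab : a * b ≤ 724 / 1000 * rho ^ (l + m) := by
        rw [pow_add]
        by_cases hl : 5 ≤ l
        · calc a * b ≤ (8 / 10 * rho ^ l) * (905 / 1000 * rho ^ m) :=
                mul_le_mul (h7 hl).1 g6.1 hb.le (by positivity)
            _ = 724 / 1000 * (rho ^ l * rho ^ m) := by ring
        · calc a * b ≤ (905 / 1000 * rho ^ l) * (8 / 10 * rho ^ m) :=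
                mul_le_mul h6.1 (g7 (by omega)).1 hb.le (by positivity)
            _ = 724 / 1000 * (rho ^ l * rho ^ m) := by ring
      have h11 := rho_pow_ge (t := l + m) (by omega)
      have hpos : (0 : ℝ) < rho ^ (l + m) := by rw [rho_eq]; positivity
      refine ⟨by omega, hpq0, hpq1, hpqa, fun h => absurd h hlm, ⟨by linarith, by linarith⟩,
        fun _ => ⟨by linarith, by linarith⟩⟩

theorem S1 (hT : TABA.Stm) {l : ℕ} {p a : ℝ} (h : Blk l p a) :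
    a + (1 - 2 * p + a) * rho ^ 2 ≤ rho ^ (l + 3) := by
  obtain ⟨h1, h2, h3, h4, h5, h6, h7⟩ := good hT h
  by_cases hl : l ≤ 4
  · exact tb_S1 hT h1 hl (h5 (by omega))
  · have h8 := h7 (by omega)
    have hr : (0 : ℝ) < rho ^ l := by rw [rho_eq]; positivity
    have h9 : (1 - 2 * p + a) * rho ^ 2 ≤ (8 / 10 * rho ^ l) * rho ^ 2 :=
      mul_le_mul_of_nonneg_right h8.2 (by rw [rho_eq]; positivity)
    have e : rho ^ (l + 3) = rho ^ l * rho ^ 3 := pow_add _ _ _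
    have e2 : rho ^ 2 = 10609 / 6400 := by rw [rho_eq]; norm_num
    have e3 : rho ^ 3 = 1092727 / 512000 := by rw [rho_eq]; norm_num
    rw [e, e3]
    rw [e2] at h9 ⊢
    nlinarith

theorem main : BLKN.Stm := by
  intro hT l p a h
  obtain ⟨h1, h2, h3, h4, h5, h6, h7⟩ := good hT h
  have s1 := S1 hT h
  have s2 := S1 hT (Blk.neg h)
  have e : 1 - 2 * (1 - p) + (1 - 2 * p + a) = a := by ring
  rw [e] at s2
  refine ⟨h1, h2.le, h3.le, h4, s1, s2, ?_⟩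
  have e1 : rho ^ (l + 3) = rho ^ (l + 2) * rho := pow_succ _ _
  have e2 : rho ^ 2 = 10609 / 6400 := by rw [rho_eq]; norm_num
  have hr : (0 : ℝ) < rho ^ (l + 2) := by rw [rho_eq]; positivity
  rw [e1, e2] at s1 s2
  have e3 : rho = 103 / 80 := rho_eq
  have hsum : (a + (1 - 2 * p + a)) * (1 + 10609 / 6400) ≤ 2 * (rho ^ (l + 2) * rho) := by
    linarith
  rw [e3] at hsum
  rw [← e3] at hsum
  have h8 : 2 * (rho ^ (l + 2) * rho) ≤ rho ^ (l + 2) * (1 + 10609 / 6400) := by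
    have : 2 * rho ≤ 1 + 10609 / 6400 := by rw [rho_eq]; norm_num
    nlinarith
  have h9 := hsum.trans h8
  exact le_of_mul_le_mul_right h9 (by norm_num)

end Pool.Agent.W945.Lc.BLKNx
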