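import Pool.Agent.W945.Lc.Stm2

namespace Pool.Agent.W945.Lc.NUMSx

open Pool.Agent.W945.Lc

theorem big : (103 : ℕ) ^ 1000 ≤ 2 ^ 365 * 80 ^ 1000 := by decide +kernel

theorem rho_pow : rho ^ 1000 ≤ 2 ^ 365 := by
  unfold rho
  rw [div_pow, div_le_iff₀ (by positivity)]
  exact_mod_cast big

theorem main : NUMS.Stm := by
  intro n s e
  set c := (365 * (s + 3) + 999) / 1000 with hc
  have h0 : (0 : ℝ) ≤ rho := by unfold rho; norm_num
  have h1 : rho ^ (s + 0 + 3) ≤ 2 ^ c := by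
    have h2 : (rho ^ (s + 0 + 3)) ^ 1000 ≤ (2 ^ c : ℝ) ^ 1000 := by
      calc (rho ^ (s + 0 + 3)) ^ 1000 = (rho ^ 1000) ^ (s + 3) := by
            rw [← pow_mul, ← pow_mul]; congr 1; ring
        _ ≤ (2 ^ 365) ^ (s + 3) := pow_le_pow_left₀ (by positivity) rho_pow _
        _ = 2 ^ (365 * (s + 3)) := by rw [← pow_mul]
        _ ≤ 2 ^ (c * 1000) := pow_le_pow_right₀ (by norm_num) (by omega)
        _ = (2 ^ c) ^ 1000 := by rw [pow_mul]
    exact le_of_pow_le_pow_left₀ (by norm_num) (by positivity) h2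
  have h3 : (n : ℝ) ≤ 2 ^ Nat.clog 2 n := by
    exact_mod_cast Nat.le_pow_clog (by norm_num) n
  push_cast
  have h4 : rho ^ (s + 0 + 3) * n ≤ 2 ^ c * 2 ^ Nat.clog 2 n :=
    mul_le_mul h1 h3 (by positivity) (by positivity)
  have h5 : (2 : ℝ) ^ (c + Nat.clog 2 n + e) = 2 ^ c * 2 ^ Nat.clog 2 n * 2 ^ e := by
    rw [pow_add, pow_add]
  rw [mul_div_assoc', div_le_div_iff₀ (by positivity) (by positivity), h5, one_mul]
  exact mul_le_mul_of_nonneg_right h4 (by positivity)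

end Pool.Agent.W945.Lc.NUMSx
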