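import Pool.Agent.W945.Lc.Stm2

/-!
# Assembly: small-bias bits fool all circuits of size `m` on `m` inputs
-/

namespace Pool.Agent.W945.Lc

open Finset Pool.Agent.W945.Pw

noncomputable section

/-- The probability that a test accepts a uniformly random point. -/
def Pr {Ω : Type} [Fintype Ω] (P : Ω → Bool) : ℝ :=
  (∑ ω, if P ω = true then (1 : ℝ) else 0) / (Fintype.card Ω : ℝ)

/-- Half of the number of random bits, for `n` inputs, size `s` and error `2 ^ (-e)`. -/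
def halfSeed (n s e : ℕ) : ℕ := (365 * (s + 3) + 999) / 1000 + Nat.clog 2 n + e

end

namespace Fin2

theorem clog_le (m : ℕ) (hm : 5000 ≤ m) : Nat.clog 2 m ≤ m / 1000 + 8 := by
  apply Nat.clog_le_of_le_pow
  have key : ∀ t : ℕ, 5 ≤ t → 1000 * (t + 1) ≤ 2 ^ (t + 8) := by
    intro t ht
    induction t, ht using Nat.le_induction with
    | base => norm_num
    | succ t ht ih =>
      have e : 2 ^ (t + 1 + 8) = 2 * 2 ^ (t + 8) := by ring
      rw [e]
      omega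
  have h1 : 5 ≤ m / 1000 := by omega
  have h2 := key (m / 1000) h1
  omega

theorem seed_le (m : ℕ) (hm : 5000 ≤ m) : 100 * (2 * halfSeed m m 3) ≤ 74 * m := by
  have := clog_le m hm
  unfold halfSeed
  omega

/-- functions with small circuits have small spectral norm -/
theorem norm (hBASE : BASE.Stm) (hIDX : IDX.Stm) (hDEL : DEL.Stm) (hMIN : MIN.Stm)
    (hTWO : CASETWO.Stm) (hONE : CASEONE.Stm) (hSTAGE : STAGE.Stm) (hTABA : TABA.Stm)
    (hBLKN : BLKN.Stm) (hSPL : SPL.Stm) (hSNL : SNL.Stm) (hELIMS : ELIMS.Stm)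
    (n s : ℕ) (f : Fn n) (hf : Computes f s) :
    SN (fun x => ind (f x)) (rho ^ (s + 0 + 3)) := by
  have := hELIMS hBASE hIDX hDEL hMIN hTWO hONE hSTAGE hTABA hBLKN hSPL hSNL s n n f univ
    (fun i x => x i) (fun i => {i}) (fun _ => 1) (fun _ => 1 / 2) (fun _ => 1) hf
    (fun x x' h => by rw [funext fun j => h j (mem_univ j)])
    (fun j _ => ⟨Blk.leaf, hSPL.1 n j⟩)
    (fun i _ j _ hij => by simpa using hij)
  simpa using this

theorem fool (hBASE : BASE.Stm) (hIDX : IDX.Stm) (hDEL : DEL.Stm) (hMIN : MIN.Stm)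
    (hTWO : CASETWO.Stm) (hONE : CASEONE.Stm) (hSTAGE : STAGE.Stm) (hTABA : TABA.Stm)
    (hBLKN : BLKN.Stm) (hSPL : SPL.Stm) (hSNL : SNL.Stm) (hELIMS : ELIMS.Stm) (hBIAS : BIAS.Stm)
    (hFOOLS : FOOLS.Stm) (hNUMS : NUMS.Stm) (n s e : ℕ) (F : Type) [Field F] [Fintype F]
    (lam : F →+ ZMod 2) (hF : Fintype.card F = 2 ^ halfSeed n s e) (hlam : lam ≠ 0) (f : Fn n)
    (hf : Computes f s) :
    |Pr (fun p : F × F => f (gen lam p)) - Pr f| ≤ 1 / 2 ^ e := by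
  have hn := norm hBASE hIDX hDEL hMIN hTWO hONE hSTAGE hTABA hBLKN hSPL hSNL hELIMS n s f hf
  have := hFOOLS n _ ((n : ℝ) / ((2 ^ halfSeed n s e : ℕ) : ℝ)) (F × F) (gen lam) _ (by positivity)
    hn (fun S hS => by
      have := hBIAS F n lam hlam S hS
      rw [hF] at this
      exact this)
  exact le_trans this (hNUMS n s e)

theorem main (hBASE : BASE.Stm) (hIDX : IDX.Stm) (hDEL : DEL.Stm) (hMIN : MIN.Stm)
    (hTWO : CASETWO.Stm) (hONE : CASEONE.Stm) (hSTAGE : STAGE.Stm) (hTABA : TABA.Stm)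
    (hBLKN : BLKN.Stm) (hSPL : SPL.Stm) (hSNL : SNL.Stm) (hELIMS : ELIMS.Stm) (hBIAS : BIAS.Stm)
    (hFOOLS : FOOLS.Stm) (hNUMS : NUMS.Stm)
    (hFIELD : ∀ q : ℕ, 1 ≤ q → ∃ (F : Type) (_ : Field F) (_ : Fintype F) (lam : F →+ ZMod 2),
      Fintype.card F = 2 ^ q ∧ lam ≠ 0) :
    (∀ (n s e : ℕ) (F : Type) [Field F] [Fintype F] (lam : F →+ ZMod 2),
      Fintype.card F = 2 ^ halfSeed n s e → lam ≠ 0 →
        Fintype.card (F × F) = 2 ^ (2 * halfSeed n s e) ∧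
        ∀ f : Fn n, Computes f s → |Pr (fun p : F × F => f (gen lam p)) - Pr f| ≤ 1 / 2 ^ e) ∧
    (∀ n s e : ℕ, ∃ (F : Type) (_ : Field F) (_ : Fintype F) (lam : F →+ ZMod 2),
      Fintype.card F = 2 ^ halfSeed n s e ∧ lam ≠ 0) ∧
    ∀ m : ℕ, 5000 ≤ m → 100 * (2 * halfSeed m m 3) ≤ 74 * m := by
  refine ⟨?_, fun n s e => hFIELD _ (by unfold halfSeed; omega), seed_le⟩
  intro n s e F _ _ lam hF hlam
  refine ⟨?_, ?_⟩
  · rw [Fintype.card_prod, hF, ← pow_add, two_mul]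
  · intro f hf
    exact fool hBASE hIDX hDEL hMIN hTWO hONE hSTAGE hTABA hBLKN hSPL hSNL hELIMS hBIAS hFOOLS
      hNUMS n s e F lam hF hlam f hf

end Fin2

end Pool.Agent.W945.Lc
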