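import Pool.Agent.W945.Lc.Fin2

/-!
# Parities of the inputs are free
-/

namespace Pool.Agent.W945.Lc

open Finset Pool.Agent.W945.Pw

/-- The parity of the bits `x i`, `i ∈ A`. -/
def par {n : ℕ} (A : Finset (Fin n)) (x : Fin n → Bool) : Bool :=
  decide (Odd (A.filter fun i => x i = true).card)

namespace Lin

theorem sg_mul_self (b : Bool) : sg b * sg b = 1 := by cases b <;> simp [sg]

theorem chi_eq {n : ℕ} (A : Finset (Fin n)) (x : Fin n → Bool) :
    chi A x = (-1) ^ (A.filter fun i => x i = true).card := by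
  unfold chi
  rw [Finset.card_filter, ← Finset.prod_pow_eq_pow_sum]
  apply Finset.prod_congr rfl
  intro i _
  unfold sg
  split_ifs <;> simp

theorem sg_par {n : ℕ} (A : Finset (Fin n)) (x : Fin n → Bool) : sg (par A x) = chi A x := by
  rw [chi_eq]
  unfold sg par
  by_cases h : Odd (A.filter fun i => x i = true).card
  · simp [h, h.neg_one_pow]
  · have h' := Nat.not_odd_iff_even.1 h
    simp [h, h'.neg_one_pow]

theorem chi_mul {n : ℕ} (A B : Finset (Fin n)) :
    ∃ C, ∀ x, chi A x * chi B x = chi C x := by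
  classical
  refine ⟨symmDiff A B, fun x => ?_⟩
  have h1 : chi A x = chi (A \ B) x * chi (A ∩ B) x := by
    unfold chi
    rw [← Finset.prod_union (Finset.disjoint_sdiff_inter A B), Finset.sdiff_union_inter]
  have h2 : chi B x = chi (B \ A) x * chi (A ∩ B) x := by
    unfold chi
    rw [Finset.inter_comm A B, ← Finset.prod_union (Finset.disjoint_sdiff_inter B A),
      Finset.sdiff_union_inter]
  have h3 : chi (symmDiff A B) x = chi (A \ B) x * chi (B \ A) x := by
    unfold chi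
    rw [symmDiff_def, Finset.sup_eq_union, Finset.prod_union]
    exact disjoint_sdiff_sdiff
  have h4 : chi (A ∩ B) x * chi (A ∩ B) x = 1 := by
    unfold chi
    rw [← Finset.prod_mul_distrib]
    exact Finset.prod_eq_one fun i _ => sg_mul_self _
  rw [h1, h2, h3]
  linear_combination (chi (A \ B) x * chi (B \ A) x) * h4

theorem chi_par {n N : ℕ} (A : Fin N → Finset (Fin n)) (S : Finset (Fin N)) :
    ∃ C : Finset (Fin n), ∀ x, chi S (fun i => par (A i) x) = chi C x := by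
  classical
  induction S using Finset.induction_on with
  | empty => exact ⟨∅, fun x => by simp [chi]⟩
  | insert i S hi ih =>
    obtain ⟨C, hC⟩ := ih
    obtain ⟨C', hC'⟩ := chi_mul (A i) C
    refine ⟨C', fun x => ?_⟩
    have h1 : chi (insert i S) (fun i => par (A i) x) =
        sg (par (A i) x) * chi S (fun i => par (A i) x) := by
      unfold chi
      rw [Finset.prod_insert hi]
    rw [h1, sg_par, hC x, hC' x]

theorem SN_par {n N : ℕ} (A : Fin N → Finset (Fin n)) (f : (Fin N → Bool) → ℝ) (a : ℝ)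
    (h : SN f a) : SN (fun x : Fin n → Bool => f fun i => par (A i) x) a := by
  classical
  obtain ⟨c, h1, h2⟩ := h
  choose C hC using chi_par A
  refine ⟨fun U => ∑ S ∈ univ.filter (fun S => C S = U), c S, fun x => ?_, ?_⟩
  · show f (fun i => par (A i) x) = _
    rw [h1]
    calc ∑ S, c S * chi S (fun i => par (A i) x) = ∑ S, c S * chi (C S) x := by
          refine Finset.sum_congr rfl fun S _ => by rw [hC S x]
      _ = ∑ U, ∑ S ∈ univ.filter (fun S => C S = U), c S * chi (C S) x :=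
          (Finset.sum_fiberwise _ _ _).symm
      _ = ∑ U, (∑ S ∈ univ.filter (fun S => C S = U), c S) * chi U x := by
          refine Finset.sum_congr rfl fun U _ => ?_
          rw [Finset.sum_mul]
          refine Finset.sum_congr rfl fun S hS => ?_
          rw [(Finset.mem_filter.1 hS).2]
  · calc ∑ U, |∑ S ∈ univ.filter (fun S => C S = U), c S|
        ≤ ∑ U, ∑ S ∈ univ.filter (fun S => C S = U), |c S| :=
          Finset.sum_le_sum fun U _ => Finset.abs_sum_le_sum_abs _ _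
      _ = ∑ S, |c S| := Finset.sum_fiberwise _ _ _
      _ ≤ a := h2

end Lin

namespace Fin2

theorem foolLin (hBASE : BASE.Stm) (hIDX : IDX.Stm) (hDEL : DEL.Stm) (hMIN : MIN.Stm)
    (hTWO : CASETWO.Stm) (hONE : CASEONE.Stm) (hSTAGE : STAGE.Stm) (hTABA : TABA.Stm)
    (hBLKN : BLKN.Stm) (hSPL : SPL.Stm) (hSNL : SNL.Stm) (hELIMS : ELIMS.Stm) (hBIAS : BIAS.Stm)
    (hFOOLS : FOOLS.Stm) (hNUMS : NUMS.Stm) (n N s e : ℕ) (F : Type) [Field F] [Fintype F]
    (lam : F →+ ZMod 2) (hF : Fintype.card F = 2 ^ halfSeed n s e) (hlam : lam ≠ 0)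
    (A : Fin N → Finset (Fin n)) (f : Fn N) (hf : Computes f s) :
    |Pr (fun p : F × F => f fun i => par (A i) (gen lam p)) -
      Pr (fun x : Fin n → Bool => f fun i => par (A i) x)| ≤ 1 / 2 ^ e := by
  have hn := Lin.SN_par A _ _
    (norm hBASE hIDX hDEL hMIN hTWO hONE hSTAGE hTABA hBLKN hSPL hSNL hELIMS N s f hf)
  have := hFOOLS n _ ((n : ℝ) / ((2 ^ halfSeed n s e : ℕ) : ℝ)) (F × F) (gen lam) _ (by positivity)
    hn (fun S hS => by
      have := hBIAS F n lam hlam S hS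
      rw [hF] at this
      exact this)
  exact le_trans this (hNUMS n s e)

theorem mainLin (hBASE : BASE.Stm) (hIDX : IDX.Stm) (hDEL : DEL.Stm) (hMIN : MIN.Stm)
    (hTWO : CASETWO.Stm) (hONE : CASEONE.Stm) (hSTAGE : STAGE.Stm) (hTABA : TABA.Stm)
    (hBLKN : BLKN.Stm) (hSPL : SPL.Stm) (hSNL : SNL.Stm) (hELIMS : ELIMS.Stm) (hBIAS : BIAS.Stm)
    (hFOOLS : FOOLS.Stm) (hNUMS : NUMS.Stm)
    (hFIELD : ∀ q : ℕ, 1 ≤ q → ∃ (F : Type) (_ : Field F) (_ : Fintype F) (lam : F →+ ZMod 2),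
      Fintype.card F = 2 ^ q ∧ lam ≠ 0) :
    (∀ (n s e : ℕ) (F : Type) [Field F] [Fintype F] (lam : F →+ ZMod 2),
      Fintype.card F = 2 ^ halfSeed n s e → lam ≠ 0 →
        Fintype.card (F × F) = 2 ^ (2 * halfSeed n s e) ∧
        (∀ f : Fn n, Computes f s → |Pr (fun p : F × F => f (gen lam p)) - Pr f| ≤ 1 / 2 ^ e) ∧
        ∀ (N : ℕ) (A : Fin N → Finset (Fin n)) (f : Fn N), Computes f s →
          |Pr (fun p : F × F => f fun i => par (A i) (gen lam p)) -
            Pr (fun x : Fin n → Bool => f fun i => par (A i) x)| ≤ 1 / 2 ^ e) ∧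
    (∀ n s e : ℕ, ∃ (F : Type) (_ : Field F) (_ : Fintype F) (lam : F →+ ZMod 2),
      Fintype.card F = 2 ^ halfSeed n s e ∧ lam ≠ 0) ∧
    (∀ m : ℕ, 5000 ≤ m → 100 * (2 * halfSeed m m 3) ≤ 74 * m) ∧
    ∀ (n s : ℕ) (f : Fn n), Computes f s → ∃ c : Finset (Fin n) → ℝ,
      (∀ x, (if f x = true then 1 else 0) = ∑ S, c S * chi S x) ∧
        ∑ S, |c S| ≤ (103 / 80 : ℝ) ^ (s + 3) := by
  obtain ⟨h1, h2, h3⟩ := main hBASE hIDX hDEL hMIN hTWO hONE hSTAGE hTABA hBLKN hSPL hSNL hELIMS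
    hBIAS hFOOLS hNUMS hFIELD
  refine ⟨?_, h2, h3, ?_⟩
  · intro n s e F _ _ lam hF hlam
    refine ⟨(h1 n s e F lam hF hlam).1, (h1 n s e F lam hF hlam).2, ?_⟩
    intro N A f hf
    exact foolLin hBASE hIDX hDEL hMIN hTWO hONE hSTAGE hTABA hBLKN hSPL hSNL hELIMS hBIAS hFOOLS
      hNUMS n N s e F lam hF hlam A f hf
  · intro n s f hf
    obtain ⟨c, hc1, hc2⟩ := norm hBASE hIDX hDEL hMIN hTWO hONE hSTAGE hTABA hBLKN hSPL hSNL hELIMS
      n s f hf
    exact ⟨c, hc1, hc2⟩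

end Fin2

end Pool.Agent.W945.Lc
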