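import Pool.Agent.W945.Pw.Stm

/-!
# Project LC: pseudorandom bits with linear stretch against all circuits of size `m` on `m` inputs

Everything here is light. Every `XX.Stm : Prop` is one subtask; a complete proof is in its docstring.
-/

namespace Pool.Agent.W945.Lc

open Finset Pool.Agent.W945.Pw

noncomputable section

/-! ### Circuits -/

/-- Boolean functions of `n` variables. -/
abbrev Fn (n : ℕ) : Type := (Fin n → Bool) → Bool

/-- `a` is, up to negation, a constant, an input or a member of `L`. -/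
def Avail {n : ℕ} (L : List (Fn n)) (a : Fn n) : Prop :=
  ∃ c : Bool, (∀ x, a x = c) ∨ (∃ i, ∀ x, a x = xor (x i) c) ∨ ∃ g ∈ L, ∀ x, a x = xor (g x) c

/-- `L` is the list (newest first) of the functions computed by the gates of a circuit: every gate is
the AND or the OR of two functions, each of which is an input, a constant or an earlier gate, possibly
negated. The fan-out is unlimited. -/
inductive IsCircuit {n : ℕ} : List (Fn n) → Prop
  | nil : IsCircuit []
  | and (L : List (Fn n)) (a b : Fn n) : IsCircuit L → Avail L a → Avail L b →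
      IsCircuit ((fun x => a x && b x) :: L)
  | or (L : List (Fn n)) (a b : Fn n) : IsCircuit L → Avail L a → Avail L b →
      IsCircuit ((fun x => a x || b x) :: L)

/-- `f` is computed by a circuit with at most `s` gates (AND and OR; negations are not counted). -/
def Computes {n : ℕ} (f : Fn n) (s : ℕ) : Prop := ∃ L, IsCircuit L ∧ L.length ≤ s ∧ Avail L f

/-- `a` is, up to negation, a constant, an input or some `g j` with `P j`. -/
def Av {n : ℕ} (g : ℕ → Fn n) (P : ℕ → Prop) (a : Fn n) : Prop :=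
  ∃ c : Bool, (∀ x, a x = c) ∨ (∃ i, ∀ x, a x = xor (x i) c) ∨ ∃ j, P j ∧ ∀ x, a x = xor (g j x) c

/-- Every `g k`, `k < s`, is the AND of two functions available before. -/
def Chain {n : ℕ} (s : ℕ) (g : ℕ → Fn n) : Prop :=
  ∀ k < s, ∃ a b, Av g (fun j => j < k) a ∧ Av g (fun j => j < k) b ∧ ∀ x, g k x = (a x && b x)

/-- The nodes of a circuit: inputs and gates. -/
inductive Node (n : ℕ) where
  | inp (i : Fin n)
  | gt (j : ℕ)

/-- The function of a node. -/
def Node.fn {n : ℕ} (g : ℕ → Fn n) : Node n → Fn n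
  | .inp i => fun x => x i
  | .gt j => g j

/-- The node is an input or a gate before `k`. -/
def Node.Before {n : ℕ} (k : ℕ) : Node n → Prop
  | .inp _ => True
  | .gt j => j < k

/-- Circuits with `s` AND gates and wires `A`, `B` with signs `α`, `β`, without constants. -/
structure Wired (n s : ℕ) where
  g : ℕ → Fn n
  A : ℕ → Node n
  B : ℕ → Node n
  α : ℕ → Bool
  β : ℕ → Bool
  hA : ∀ k < s, (A k).Before k
  hB : ∀ k < s, (B k).Before k
  rule : ∀ k < s, ∀ x, g k x = (xor ((A k).fn g x) (α k) && xor ((B k).fn g x) (β k))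

/-- `k` uses the node `v`. -/
def Wired.Uses {n s : ℕ} (W : Wired n s) (k : ℕ) (v : Node n) : Prop := W.A k = v ∨ W.B k = v

/-- `W` is a circuit of minimal size for `F`: there is none with `s - 1` gates, the output is the last
gate, the arguments of every gate are different nodes, and every other gate is used. -/
structure Wired.Min {n s : ℕ} (W : Wired n s) (F : Fn n) (γ : Bool) : Prop where
  pos : 1 ≤ s
  least : ¬ Computes F (s - 1)
  out : ∀ x, F x = xor (W.g (s - 1) x) γ
  ne : ∀ k < s, W.A k ≠ W.B k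
  used : ∀ k, k + 1 < s → ∃ l < s, W.Uses l (.gt k)

/-- The function `F` with the `i`-th input fixed to `c`. -/
def res {n : ℕ} (F : Fn n) (i : Fin n) (c : Bool) : Fn n := fun x => F (Function.update x i c)

/-- `F` is constant, or is computed by a circuit with `k` gates less than `s`. -/
def Drop {n : ℕ} (F : Fn n) (s k : ℕ) : Prop :=
  (∃ b, ∀ x, F x = b) ∨ ∃ s', Computes F s' ∧ s' + k ≤ s

/-- The number of the two bits `c₁`, `c₂` which are equal to `c`. -/
def kap (c₁ c₂ c : Bool) : ℕ := (if c = c₁ then 1 else 0) + (if c = c₂ then 1 else 0)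

/-! ### Decision trees -/

/-- Decision trees. -/
inductive DT (n : ℕ) where
  | leaf (b : Bool)
  | node (i : Fin n) (l r : DT n)

namespace DT

/-- The value. -/
def eval {n : ℕ} : DT n → (Fin n → Bool) → Bool
  | leaf b, _ => b
  | node i l r, x => if x i = true then r.eval x else l.eval x

/-- The number of queries. -/
def len {n : ℕ} : DT n → (Fin n → Bool) → ℕ
  | leaf _, _ => 0
  | node i l r, x => (if x i = true then r.len x else l.len x) + 1

/-- The variables. -/
def vars {n : ℕ} : DT n → Finset (Fin n)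
  | leaf _ => ∅
  | node i l r => insert i (l.vars ∪ r.vars)

/-- No variable is queried twice on a path. -/
def Ok {n : ℕ} : DT n → Prop
  | leaf _ => True
  | node i l r => i ∉ l.vars ∧ i ∉ r.vars ∧ l.Ok ∧ r.Ok

/-- The depth. -/
def depth {n : ℕ} : DT n → ℕ
  | leaf _ => 0
  | node _ l r => max l.depth r.depth + 1

/-- The probability of the value `true`. -/
def pr {n : ℕ} : DT n → ℝ
  | leaf b => if b = true then 1 else 0
  | node _ l r => (l.pr + r.pr) / 2

/-- The mean number of queries. -/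
def cost {n : ℕ} : DT n → ℝ
  | leaf _ => 0
  | node _ l r => (l.cost + r.cost) / 2 + 1

/-- The mean of `z ^ (number of queries)`, with weights `w₀`, `w₁` of the values. -/
def wt {n : ℕ} (z w₀ w₁ : ℝ) : DT n → ℝ
  | leaf b => if b = true then w₁ else w₀
  | node _ l r => z * ((l.wt z w₀ w₁ + r.wt z w₀ w₁) / 2)

/-- Replace the leaves with value `b` by `f b`. -/
def graft {n : ℕ} : DT n → (Bool → DT n) → DT n
  | leaf b, f => f b
  | node i l r, f => node i (l.graft f) (r.graft f)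

end DT

/-- The base `1 + 10 ^ (-8)`. -/
def y : ℝ := 1 + 1 / 10 ^ 8

/-- The rows of the table `tab`: the entry `k` is the digit of `2 ^ (16 k)`. -/
def row : ℕ → ℕ
  | 1 => 0x3e803e80000000000000000000000000000000000000000000000000000000000000000000000000000000000000000000000000000000000000000000000000000
  | 2 => 0x5dc05ec05ec000000000000000000000000000000000000000000000000000000000000000000000000000000000000000000000000000000000000000005ec05ec05dc000000000000000000000000000000000000000000000000000000000000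
  | 3 => 0x6de06f606f600000000000000000000000000000000000000000000000006de06f606f606ee00000000000000000000000000000000000000000000000006ee06f606f606de00000000000000000000000000000000000000000000000006f606f606de0000000000000000000000000000
  | 4 => 0x7630797079700000000000000000757077f0797079700000000000000000763077f077f077f00000000000000000a590a590a5d0a5d0a46000000000a460a5d0a5d0a590a590000000000000000077f077f077f0763000000000000000007970797077f07570000000000000000079707970763000000000000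
  | 5 => 0x7b407e207d2079407db07e307e3079a07c607e207e20915093e0940094009350956095609560b1e0b310b310b310b250b0907d20a8a0ac20ac20ac20ac10ac10ac20ac20ac20a8a07d20b090b250b310b310b310b1e095609560956093509400940093e091507e207e207c6079a07e307e307db079407d207e207b40000
  | 6 => 0x7d9080f080e08260826087308d6095f099309bf09bf09ae09ae0cfc0cfc0d0e0d0e0cf20cf20cf10d240d250d250d6c0d9b0db20db20dc90dc90dc90b9a0b8c0b8c0b9a0dc90dc90dc90db20db20d9b0d6c0d250d250d240cf10cf20cf20d0e0d0e0cfc0cfc09ae09ae09bf09bf0993095f08d6087308260826080e080f07d9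
  | 7 => 0x826083f085308ce091d091d0a9a0aa40aa40d730da10da10da10da10d9b0d7c0d6a0d850d9a0d9a0d9a0dac0db70dd30dfe0dfe0e0e0e330e4f0e650e7c0e7c0e7c0e7c0e650e4f0e330e0e0dfe0dfe0dd30db70dac0d9a0d9a0d9a0d850d6a0d7c0d9b0da10da10da10da10d730aa40aa40a9a091d091d08ce0853083f0826
  | 8 => 0x84e08e7094109980ad80e6e0e840eb50eb50eb50eb70ee20f100f390f400f4c0fa50ffb101a1043105a107e107e0e951043106a106a106a106a105910471023102310471059106a106a106a106a10430e95107e107e105a1043101a0ffb0fa50f4c0f400f390f100ee20eb70eb50eb50eb50e840e6e0ad80998094108e7084e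
  | 9 => 0x8b109540b590ebb0ee70efb0efb0efb0eec0f130f3f0f3f0f680f7f0fad0fe4100c104f126f126f126f126312631247122f120f11f311ee11e611f511f511f511f511f511f511e611ee11f3120f122f124712631263126f126f126f104f100c0fe40fad0f7f0f680f3f0f3f0f130eec0efb0efb0efb0ee70ebb0b59095408b1
  | 10 => 0x9950f4a0f590f850f850f8b0fd01006105210a410c7114711c0121d123013021309130913091302130212f912c312a312a2129b129b12b612c312c312c3127d127d12c312c312c312b6129b129b12a212a312c312f91302130213091309130913021230121d11c0114710c710a4105210060fd00f8b0f850f850f590f4a0995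
  | 11 => 0xbcb0fa30fb10fb10fbc100810341087114c117b117b13cd13f914091409140914201449146d1473147e14cc1507151815281528152c152c1523151014a814a814a814a815101523152c152c152815281518150714cc147e1473146d1449142014091409140913f913cd117b117b114c1087103410080fbc0fb10fb10fa30bcb
  | 12 => 0xfb20ffe1001105410d4117e11b915241536154a156115611561155a153b153b154615461553158e15c215d4160b1755175517441728171816f516d916ac1689168916ac16d916f517181728174417551755160b15d415c2158e155315461546153b153b155a156115611561154a1536152411b9117e10d4105410010ffe0fb2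
  | 13 => 0xfff107810b810f01234158815b315b315bb15bb15bb15ad15a315a715a715d0164216ad1700171117e417e417e417e417d917cc17bb17981755171e171c16fa16fa171c171e1755179817bb17cc17d917e417e417e417e41711170016ad164215d015a715a715a315ad15bb15bb15bb15b315b31588123410f010b810780fff
  | 14 => 0x104c10e312d016131628164b164b164b1676169b16c916fe172a176517c118001902190219211921192118eb18fd191e192d19641989198919891979197919661966197919791989198919891964192d191e18fd18eb19211921192119021902180017c11765172a16fe16c9169b1676164b164b164b1628161312d010e3104c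
  | 15 => 0x108a16c116d016dd16eb16eb16eb16f51710174317c317d5180319eb1a171a241a241a171a171a2c1a2c1a231a241a241a3f1a4f1a801bad1bad1ba01b741b5d1b5d1b741ba01bad1bad1a801a4f1a3f1a241a241a231a2c1a2c1a171a171a241a241a1719eb180317d517c31743171016f516eb16eb16eb16dd16d016c1108a
  | 16 => 0x116e171c1728173417341734176e181018601bbc1bbc1bbc1bac1bcf1bcf1ba21ba21b671b591b291b361b4d1b4d1b6c1c221c3b1c3b1c3b1c3b1c221c001bd61bd61c001c221c3b1c3b1c3b1c3b1c221b6c1b4d1b4d1b361b291b591b671ba21ba21bcf1bcf1bac1bbc1bbc1bbc18601810176e1734173417341728171c116e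
  | 17 => 0x13a41774178017ac180d189818e51c031c2b1c3e1c3e1c3e1c181c181c0d1bdb1bc41bdf1c4d1cae1cea1d4f1d721d721d721d421d431d601d691d861d8d1d8d1d8d1d8d1d861d691d601d431d421d721d721d721d4f1cea1cae1c4d1bdf1bc41bdb1c0d1c181c181c3e1c3e1c3e1c2b1c0318e51898180d17ac1780177413a4
  | 18 => 0x178b17f41811182b198c1cc61cc61ce01ce01ce01ce41ce41cf41d0b1d311d4d1d9d1db41e781e9d1eab1eab1e8b1e891e821e821e741ec91f1c1f371faf1faf1faf1faf1f371f1c1ec91e741e821e821e891e8b1eab1eab1e9d1e781db41d9d1d4d1d311d0b1cf41ce41ce41ce01ce01ce01cc61cc6198c182b181117f4178b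
  | 19 => 0x17d818611a291d4e1d5c1d861d861d861d741d741d641d641ded1e001e1d1fd31ffb1ffb1ffb1ffb1fed1fcd1fb21f8b1f8b1f7f1f6a1f742019201e201e201e201e201e201e20191f741f6a1f7f1f8b1f8b1fb21fcd1fed1ffb1ffb1ffb1ffb1fd31e1d1e001ded1d641d641d741d741d861d861d861d5c1d4e1a29186117d8
  | 20 => 0x18001e571e571e571e381e501e501e501e121e8f1ec521ec21ec21ec21d721c421c021c0218f216a2155211320bb20a120e120ef2190219021502150212f212a212a212f215021502190219020ef20e120a120bb21132155216a218f21c021c021c421d721ec21ec21ec1ec51e8f1e121e501e501e501e381e571e571e571800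
  | 21 => 0x18631eaf1eaf1eaf1e8d1e8d1ea41f131f402243226a227922792279225222342205220521c921a121d721fb2208222b2259226e22d722db2325232522402213221322402325232522db22d7226e2259222b220821fb21d721a121c92205220522342252227922792279226a22431f401f131ea41e8d1e8d1eaf1eaf1eaf1863
  | 22 => 0x19471f091f091f091f2a1f971fa522c222d022f722f722fc22fc230923092309230723072307230d2433243424342434240123b123b1236a23872387238723832383238723872387236a23b123b124012434243424342433230d23072307230723092309230922fc22fc22f722f722d022c21fa51f971f2a1f091f091f091947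
  | 23 => 0x1b7d1f621f621f621f7d1fe91ff62312231e231e2328236c236c236c23cc23ed254f255e256f25822582258225782558254524e324a024922476246b2454242b242b2454246b2476249224a024e3254525582578258225822582256f255e254f23ed23cc236c236c236c2328231e231e23121ff61fe91f7d1f621f621f621b7d
  | 24 => 0x1f641fbd1fbd1fbd1fd3203d203f2363236523af242124b924e227f927f927c627c627962796276b276b271626c026c0266426482648257d2546253b2508250825082508253b2546257d26482648266426c026c02716276b276b2796279627c627c627f927f924e224b9242123af23652363203f203d1fd31fbd1fbd1fbd1f64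
  | _ => 0

/-- The table of upper bounds for 1000 times the mean number of queries that is necessary to evaluate
a read-once formula with `l` leaves and acceptance probability in `[k / 64, (k + 1) / 64]`. -/
def tab (l k : ℕ) : ℕ := if k < 64 then row l / 2 ^ (16 * k) % 2 ^ 16 else 0

/-- The invariant of blocks with `l` leaves. -/
def Inv {n : ℕ} (D : DT n) (l : ℕ) : Prop :=
  D.Ok ∧ D.depth ≤ l ∧ 1 ≤ D.cost ∧
    ∃ k : ℕ, k < 64 ∧ (k : ℝ) ≤ 64 * D.pr ∧ 64 * D.pr ≤ k + 1 ∧ 1000 * D.cost ≤ (tab l k : ℝ)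

/-! ### The generator -/

/-- The small-bias generator of Alon, Goldreich, Håstad and Peralta: the bits
`λ(a), λ(a z), λ(a z ^ 2), …`. -/
def gen {F : Type} [Field F] {n : ℕ} (lam : F →+ ZMod 2) (p : F × F) : Fin n → Bool :=
  fun i => decide (lam (p.1 * p.2 ^ (i : ℕ)) = 1)

/-! ### Subtasks: circuits -/

/-- BASE: build a circuit from the functions `g k`, `k ∉ K`.

Proof. By induction on `t ≤ s` there is a list `L` with `IsCircuit L`,
`L.length = t - (K ∩ range t).card` (or `L.length + (K.filter (· < t)).card = t`) and `g j ∈ L` for all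
`j < t`, `j ∉ K`: for `t ∈ K` keep `L`, otherwise add `g t = a && b` (`Av` with `P j = j < t ∧ j ∉ K`
implies `Avail L`). -/
def BASE.Stm : Prop := ∀ (n s : ℕ) (g : ℕ → Fn n) (K : Finset ℕ) (f : Fn n), K ⊆ range s →
  (∀ k < s, k ∉ K → ∃ a b, Av g (fun j => j < k ∧ j ∉ K) a ∧ Av g (fun j => j < k ∧ j ∉ K) b ∧
    ∀ x, g k x = (a x && b x)) →
  Av g (fun j => j < s ∧ j ∉ K) f → Computes f (s - K.card)

/-- IDX: from lists to chains.

Proof. Induction on `IsCircuit L`: there is `g` with `Chain L.length g` such that every member of `L`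
is, up to negation, some `g j`, `j < L.length` (so `Avail L a` implies
`Av g (fun j => j < L.length) a`). New gate `a && b`: put `g' = Function.update g L.length (a && b)`;
new gate `a || b`: put `g' = Function.update g L.length (!a && !b)`, and `a || b = !(!a && !b)`.
(`Av` is closed under negation; `Av g (· < k)` only depends on `g j`, `j < k`.) -/
def IDX.Stm : Prop := ∀ (n s : ℕ) (f : Fn n), Computes f s →
  ∃ t ≤ s, ∃ g : ℕ → Fn n, Chain t g ∧ Av g (fun j => j < t) f

/-- DEL: gates that are available without their rule can be deleted.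

Proof. By strong induction on `j`: every `g j`, `j < s`, satisfies
`Av g (fun l => l ≤ j ∧ l ∉ K) (g j)` (clear for `j ∉ K`; for `j ∈ K` it is a constant, an input or
`g l`, `l < j`, up to sign). So `Av g (· < k) a` implies `Av g (fun j => j < k ∧ j ∉ K) a` for `k ≤ s`.
Apply BASE. -/
def DEL.Stm : Prop := BASE.Stm → ∀ (n s : ℕ) (g : ℕ → Fn n) (K : Finset ℕ) (f : Fn n),
  K ⊆ range s → Chain s g → (∀ k ∈ K, Av g (fun j => j < k) (g k)) → Av g (fun j => j < s) f →
    Computes f (s - K.card)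

/-- MIN: minimal circuits.

Proof. Let `t ≤ s` be minimal with `Computes F t`. `t ≥ 1`, since `Computes F 0` means that `F` is a
constant or a literal. By IDX there are `t' ≤ t`, `g`, `Chain t' g`, `Av g (· < t') F`; then
`Computes F t'` by DEL with `K = ∅`, so `t' = t`. No `k < t` satisfies `Av g (· < k) (g k)`
(otherwise DEL with `K = {k}` gives `Computes F (t - 1)`). So in `g k = a && b` the functions `a`, `b`
are not constant (otherwise `g k` is constant or equal to the other one), so each of them is a node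
with a sign; this defines `A, B, α, β` (choose for `k < t`; anything for other `k`; `Before` holds).
`A k ≠ B k`: otherwise `g k` is constant or the common node with a sign, so available. The output: `F`
is not a constant or literal, so `F = g j ⊕ γ` with `j < t`; if `j ≤ t - 2`, then DEL or BASE for
`s = t - 1` gives `Computes F (t - 1)`. So `j = t - 1`. Used: if `k + 1 < t` is not used by any
`l < t`, apply BASE with `K = {k}` (the arguments of `g l` are nodes `≠ gt k`, the output is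
`t - 1 ≠ k`) and get `Computes F (t - 1)`. -/
def MIN.Stm : Prop := BASE.Stm → IDX.Stm → DEL.Stm → ∀ (n s : ℕ) (F : Fn n), Computes F s →
  (¬ ∃ b, ∀ x, F x = b) → (¬ ∃ i b, ∀ x, F x = xor (x i) b) →
  ∃ (t : ℕ) (W : Wired n t) (γ : Bool), t ≤ s ∧ W.Min F γ

/-- CASETWO: an input that is used twice.

Proof. Write `g' j = res (g j) u c`. `Chain s g'` (the restricted inputs are constants or inputs).
A gate `k` is called trivial if `Av g' (· < k) (g' k)`. By DEL, applied to `g'` and
`res F u c = g' (s-1) ⊕ γ`, `Computes (res F u c) (s - |K|)` for every set `K ⊆ range s` of trivial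
gates, so it suffices to find `|K| = 2 + kap c₁ c₂ c` trivial gates, if `res F u c` is not constant.
In that case no constant gate (`g' k` constant) is the output `s - 1`, so every constant gate `k` has
a user `l > k` (`used`; `l > k` by `Before`), and every user of a constant gate is trivial (it is
constant or the other argument, up to sign). Let `α₁` be the sign of the wire `u → k₁` and `z₁, β₁` the
other argument of `k₁` and its sign; the same for `k₂`. `c₁ = α₁`, `c₂ = α₂`: for `c = c₁` the gate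
`k₁` is constant (`false`), for `c ≠ c₁` it is `z₁ ⊕ β₁`; in both cases it is trivial.
* `c ≠ c₁, c₂`: `K = {k₁, k₂}`.
* `c = c₁ ≠ c₂`: let `k₃` be a user of `k₁`. If `k₃ ≠ k₂`, `K = {k₁, k₂, k₃}`. If `k₃ = k₂`, then the
  arguments of `k₂` are `u` and `gt k₁`, so `k₂` is constant as well (`= k₁` up to sign), it has a user
  `k₄`, and `K = {k₁, k₂, k₄}`.
* `c = c₂ ≠ c₁`: `k₂` has a user `k₃ > k₂`, `K = {k₁, k₂, k₃}`.
* `c = c₁ = c₂`: `k₂` has a user `k₃`. If some user `k₄` of `k₁` is different from `k₂`, `k₃`, then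
  `K = {k₁, k₂, k₃, k₄}`. If `k₃` is a user of `k₁`, then its arguments are `gt k₁`, `gt k₂`, so `k₃` is
  constant, it has a user `k₅`, `K = {k₁, k₂, k₃, k₅}`. Otherwise the only user of `k₁` is `k₂` (`k₁`
  has a user because it is not the output), and its arguments are `u` (sign `α`) and `gt k₁` (sign
  `δ`). Then `g k₂ = (u ⊕ α) ∧ (((u ⊕ α) ∧ (z₁ ⊕ β₁)) ⊕ δ) = (u ⊕ α) ∧ (z₁ ⊕ β₁ ⊕ δ)`, so BASE with
  `K = {k₁}` (for `k₂` use this formula, the other gates do not use `k₁`) gives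
  `Computes F (s - 1)`, a contradiction. -/
def CASETWO.Stm : Prop := BASE.Stm → DEL.Stm → ∀ (n s : ℕ) (W : Wired n s) (F : Fn n) (γ : Bool),
  W.Min F γ → ∀ (u : Fin n) (k₁ k₂ : ℕ), k₁ < k₂ → k₂ < s → W.Uses k₁ (.inp u) →
    W.Uses k₂ (.inp u) → ∃ c₁ c₂ : Bool, ∀ c, Drop (res F u c) s (2 + kap c₁ c₂ c)

/-- CASEONE: the first gate has two inputs which are not used otherwise.

Proof. Define `g' 0 x = x i` and `g' k x = ((A k).fn g' x ⊕ α k) && ((B k).fn g' x ⊕ β k)` for
`0 < k < s` (strong recursion; anything for `k ≥ s`). As no gate `k > 0` uses `inp i` or `inp j`,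
induction gives `g k x = g' k (update x i (g 0 x))` and `g' k (update x j b) = g' k x`. Put
`F' x = g' (s - 1) x ⊕ γ`. `Chain s g'` (`x i = x i && true` for `k = 0`) and `g' 0` is an input, so
`Computes F' (s - 1)` by DEL with `K = {0}`. The formula for `F'` follows from the formula for `F`:
`g 0` at the point `update (update x i (x i ⊕ α)) j (!β)` is
`(x i ⊕ α ⊕ α) && (!β ⊕ β) = x i`. The last statement: let `h k = res (g' k) i c`; `Chain s h`, and
`h 0` is constant. If `s = 1`, `res F' i c` is constant. Otherwise gate `0` has a user `l` (`used`),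
`l ≥ 1` as the arguments of `0` are inputs; let `c₁` be the sign of this wire. For `c = c₁`, `h l` is
constant (`false`), for `c ≠ c₁` it is the other argument up to sign; so `0, l` are trivial
(`Av h (· < l) (h l)`) and DEL with `K = {0, l}` gives `s - 2`. If `c = c₁` and `res F' i c` is not
constant, then `l ≠ s - 1`, `l` has a user `l' > l`, which is trivial too, and `K = {0, l, l'}`. -/
def CASEONE.Stm : Prop := DEL.Stm → ∀ (n s : ℕ) (W : Wired n s) (F : Fn n) (γ : Bool), W.Min F γ →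
  ∀ (i j : Fin n), i ≠ j → W.A 0 = .inp i → W.B 0 = .inp j →
  (∀ k, 0 < k → k < s → ¬ W.Uses k (.inp i) ∧ ¬ W.Uses k (.inp j)) →
  ∃ (F' : Fn n) (c₁ : Bool),
    (∀ x, F x = F' (Function.update x i (xor (x i) (W.α 0) && xor (x j) (W.β 0)))) ∧
    (∀ x, F' x = F (Function.update (Function.update x i (xor (x i) (W.α 0))) j (!W.β 0))) ∧
    (∀ x b, F' (Function.update x j b) = F' x) ∧ Computes F' (s - 1) ∧
    ∀ c, Drop (res F' i c) s (2 + if c = c₁ then 1 else 0)

/-- STAGE (assembly of MIN, CASETWO, CASEONE).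

Proof. If `F` is not a constant or literal, take `t`, `W`, `γ` from MIN. The arguments of gate `0`
are inputs `inp i ≠ inp j` (`Before 0`, `ne`). If some `k` with `0 < k < t` uses `inp i` or `inp j`,
apply CASETWO with `k₁ = 0`, `k₂ = k` (third alternative), otherwise CASEONE (fourth alternative).
`Drop F t k` implies `Drop F s k` for `t ≤ s`. -/
def STAGE.Stm : Prop := BASE.Stm → IDX.Stm → DEL.Stm → MIN.Stm → CASETWO.Stm → CASEONE.Stm →
  ∀ (n s : ℕ) (F : Fn n), Computes F s →
    (∃ b, ∀ x, F x = b) ∨ (∃ i b, ∀ x, F x = xor (x i) b) ∨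
    (1 ≤ s ∧ ∃ (i : Fin n) (c₁ c₂ : Bool), ∀ c, Drop (res F i c) s (2 + kap c₁ c₂ c)) ∨
    (1 ≤ s ∧ ∃ (i j : Fin n) (α β c₁ : Bool) (F' : Fn n), i ≠ j ∧
      (∀ x, F x = F' (Function.update x i (xor (x i) α && xor (x j) β))) ∧
      (∀ x, F' x = F (Function.update (Function.update x i (xor (x i) α)) j (!β))) ∧
      (∀ x b, F' (Function.update x j b) = F' x) ∧ Computes F' (s - 1) ∧
      ∀ c, Drop (res F' i c) s (2 + if c = c₁ then 1 else 0))

/-! ### Subtasks: decision trees -/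

/-- GRAFT: properties of `graft` and `wt`. All by induction on `T`. -/
def GRAFT.Stm : Prop := ∀ (n : ℕ) (T : DT n) (f : Bool → DT n),
  (∀ x, (T.graft f).eval x = (f (T.eval x)).eval x) ∧
  (T.graft f).vars ⊆ T.vars ∪ ((f false).vars ∪ (f true).vars) ∧
  (T.Ok → (f false).Ok → (f true).Ok → Disjoint T.vars (f false).vars →
    Disjoint T.vars (f true).vars → (T.graft f).Ok) ∧
  (T.graft f).depth ≤ T.depth + max (f false).depth (f true).depth ∧
  (T.graft f).pr = (1 - T.pr) * (f false).pr + T.pr * (f true).pr ∧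
  (T.graft f).cost = T.cost + (1 - T.pr) * (f false).cost + T.pr * (f true).cost ∧
  (∀ z w₀ w₁, (T.graft f).wt z w₀ w₁ = T.wt z ((f false).wt z w₀ w₁) ((f true).wt z w₀ w₁)) ∧
  (∀ z w₀ w₁ M, T.wt z (M * w₀) (M * w₁) = M * T.wt z w₀ w₁) ∧
  (∀ z w₀ w₁ w₀' w₁', 0 ≤ z → w₀ ≤ w₀' → w₁ ≤ w₁' → T.wt z w₀ w₁ ≤ T.wt z w₀' w₁') ∧
  0 ≤ T.pr ∧ T.pr ≤ 1 ∧ 0 ≤ T.cost

/-- MGF: weights and means.

Proof. `(1 + τ) ^ a ≤ 1 + a τ + a ^ 2 τ ^ 2` for `a ≤ 5000`, `τ = 10 ^ (-8)` (e.g. by induction on `a`,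
or from `Real.add_one_le_exp` and `exp t ≤ 1 + t + t ^ 2`), and `a ^ 2 τ ^ 2 ≤ τ / 4`. Induction on `D`
for all `a₀, a₁`: leaf: this inequality. Node: `wt (y^200) (y^a₀) (y^a₁)` of the node is the mean of
`wt (y^200) (y^(a₀+200)) (y^(a₁+200))` of the subtrees (homogeneity:
`wt z (M w₀) (M w₁) = M wt z w₀ w₁`), so the induction hypothesis gives the mean of
`1 + τ (200 cost + (a₀ + 200)(1 - pr) + (a₁ + 200) pr + 1/4)`, as needed. -/
def MGF.Stm : Prop := ∀ (n : ℕ) (D : DT n) (a₀ a₁ : ℕ), 200 * D.depth + max a₀ a₁ ≤ 5000 →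
  D.wt (y ^ 200) (y ^ a₀) (y ^ a₁) ≤
    1 + (200 * D.cost + a₀ * (1 - D.pr) + a₁ * D.pr + 1 / 4) / 10 ^ 8

/-- TAB: the finite check (a computation with natural numbers, `decide +kernel` in pieces; `(c)` has
78 pairs `l₁ ≤ l₂` with 64 * 64 pairs `k₁, k₂`; by symmetry `l₁ ≤ l₂` suffices). -/
def TAB.Stm : Prop :=
  (1000 ≤ tab 1 31 ∧ 1000 ≤ tab 1 32) ∧
  (∀ l < 25, ∀ k < 64, tab l (63 - k) = tab l k) ∧
  (∀ l₁ < 13, ∀ l₂ < 13, 1 ≤ l₁ → 1 ≤ l₂ → ∀ k₁ < 64, ∀ k₂ < 64, tab l₁ k₁ ≠ 0 → tab l₂ k₂ ≠ 0 →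
    ∀ k < 64, k₁ * k₂ / 64 ≤ k → 64 * k < (k₁ + 1) * (k₂ + 1) →
      64 * tab l₁ k₁ + (k₁ + 1) * tab l₂ k₂ ≤ 64 * tab (l₁ + l₂) k ∨
      64 * tab l₂ k₂ + (k₂ + 1) * tab l₁ k₁ ≤ 64 * tab (l₁ + l₂) k) ∧
  (∀ l < 13, 1 ≤ l → ∀ k < 64, 64 * tab l k + 80 ≤ 29440 * (l + 1) + 920 * min k (63 - k)) ∧
  ∀ l < 25, 13 ≤ l → ∀ k < 64, 64 * tab l k + 80 ≤ 29440 * l + 460 * min k (63 - k)

/-- COMB: blocks can be combined.

Proof. `Inv (node i (leaf false) (leaf true)) 1`: `pr = 1/2`, `cost = 1`, `k = 32` (or `31`).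
Negation: `D.graft (fun b => leaf (!b))` has the same variables, depth bound, cost, and
`pr' = 1 - pr`, so the invariant holds with `63 - k`. So let `α = β = false`. `D` is
`D₁.graft (fun b => if b then D₂ else leaf false)` or the same with `D₁`, `D₂` exchanged; both have
`pr = p₁ p₂` and value `D₁ && D₂`; the costs are `cost D₁ + p₁ cost D₂` and `cost D₂ + p₂ cost D₁`
(GRAFT). `p₁ p₂ ∈ [k₁ k₂ / 4096, (k₁+1)(k₂+1) / 4096]`, so there is `k` with
`k₁ k₂ / 64 ≤ k` (floor), `64 k < (k₁+1)(k₂+1)`, `k ≤ 64 p₁ p₂ ≤ k + 1` (`k = ⌊64 p₁ p₂⌋`, or one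
less if `64 p₁ p₂` is an integer and equal to the upper end). By (c) of TAB one of the two trees has
`1000 cost ≤ tab (l₁+l₂) k` (`tab lᵢ kᵢ ≠ 0` because `1000 cost Dᵢ ≥ 1000`; `pᵢ ≤ (kᵢ+1)/64`). -/
def COMB.Stm : Prop := TAB.Stm → GRAFT.Stm → ∀ (n : ℕ),
  (∀ i : Fin n, Inv (DT.node i (DT.leaf false) (DT.leaf true)) 1) ∧
  ∀ (l₁ l₂ : ℕ) (D₁ D₂ : DT n) (α β : Bool), 1 ≤ l₁ → l₁ ≤ 12 → 1 ≤ l₂ → l₂ ≤ 12 → Inv D₁ l₁ →
    Inv D₂ l₂ → Disjoint D₁.vars D₂.vars →
    ∃ D : DT n, Inv D (l₁ + l₂) ∧ D.vars ⊆ D₁.vars ∪ D₂.vars ∧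
      ∀ x, D.eval x = (xor (D₁.eval x) α && xor (D₂.eval x) β)

/-- WTS: the weights of blocks.

Proof. By MGF (depth `≤ l ≤ 24`) and `y ^ a ≥ 1 + a / 10 ^ 8` it suffices that
`200 cost + a₀ (1 - p) + a₁ p + 1/4 ≤ a`, where `p = pr`. (1) `a = 92 (l + 3)`,
`a₀ (1 - p) + a₁ p ≤ 184 - 184 min p (1-p)` (the exponents are `(184, 0)`, `(0, 184)` or `(92, 92)`),
and `200 cost + 1/4 ≤ 92 (l + 1) + 184 min p (1 - p)` by (d) of TAB
(`cost ≤ tab l k / 1000`, `min p (1-p) ≥ min k (63-k) / 64`; multiply by 320). (2) `a = 92 (l + 1)`,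
`a₀ (1-p) + a₁ p ≤ 92 - 92 min p (1-p)`, (e) of TAB. (3) `a = 92 (l + 2)`, `a₀ = a₁ = 0`, (d) of TAB
and `184 min p (1 - p) ≤ 92`. -/
def WTS.Stm : Prop := TAB.Stm → MGF.Stm → GRAFT.Stm → ∀ (n : ℕ) (D : DT n) (l : ℕ), Inv D l →
  (∀ c₁ c₂ : Bool, 1 ≤ l → l ≤ 12 → D.wt (y ^ 200) (y ^ (92 * (2 - kap c₁ c₂ false)))
    (y ^ (92 * (2 - kap c₁ c₂ true))) ≤ y ^ (92 * (l + 3))) ∧
  (∀ c₁ : Bool, 13 ≤ l → l ≤ 24 → D.wt (y ^ 200) (y ^ (92 * (1 - if false = c₁ then 1 else 0)))
    (y ^ (92 * (1 - if true = c₁ then 1 else 0))) ≤ y ^ (92 * (l + 1))) ∧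
  (1 ≤ l → l ≤ 12 → D.wt (y ^ 200) 1 1 ≤ y ^ (92 * (l + 2)))

/-- ELIM (the main induction).

Proof. Strong induction on `s`, for all `F, J, D, l`. Write `Φ = s + ∑_{j∈J} (l j - 1) + 3`,
`z = y ^ 200`. Use STAGE for `F`, `s`.
* `F` constant: a leaf, weight `1 ≤ y ^ (92 Φ)`.
* `F x = xor (x i) b`: `i ∈ J` (otherwise `F` does not depend on `x i`). `T = D i`, with negated leaves
  (`graft`) if `b = true`; the weight with `w₀ = w₁ = 1` is the same; WTS (3).
* Third alternative, `i`, `c₁`, `c₂`. If `i ∉ J`, then `F = res F i c`, so `F` is constant (a leaf) or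
  `Computes F s'` with `s' + 2 ≤ s`: induction hypothesis for `s'`. If `i ∈ J`: for each bit `c` let
  `T_c` be a leaf if `res F i c` is constant, and otherwise the tree of the induction hypothesis for
  `res F i c`, `s'`, `J \ {i}`: its weight is at most `y ^ (92 Φ_c)`,
  `Φ_c = s' + ∑_{J \ {i}} (l j - 1) + 3 ≤ Φ - (l i + 1 + kap c₁ c₂ c)`. In both cases
  `T_c.wt z 1 1 ≤ y ^ (92 (Φ - (l i + 3))) * y ^ (92 (2 - kap c₁ c₂ c))` (`Φ ≥ l i + 3` because
  `s ≥ 1`). `T = (D i).graft T_c`: GRAFT and WTS (1) give the weight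
  `≤ y ^ (92 (Φ - (l i + 3))) * y ^ (92 (l i + 3))`.
* Fourth alternative, `i ≠ j`, `F'`. If `i ∉ J` or `j ∉ J`, then `F = res F' i false` (evaluate `F` at
  `update x i α`, resp. `update x j β`), which is constant or computed with `s' + 2 ≤ s`: induction
  hypothesis. Otherwise let `D'` be the tree of COMB for `D i`, `D j`, `α`, `β` and `l' = l i + l j`.
  `F'` depends only on `J \ {j}` (second formula). If `l' ≤ 12`: induction hypothesis for `F'`,
  `s - 1`, `J \ {j}`, `update D i D'`, `update l i l'`; the number `Φ` is the same; the value is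
  `F' (update (D · x) i (D'.eval x)) = F (D · x)`. If `l' ≥ 13` (`≤ 24`): for each `c` let `T_c` be the
  tree for `res F' i c` and `J \ {i, j}` (`Φ_c ≤ Φ - (l' + [c = c₁])`, as
  `s' + 2 + [c = c₁] ≤ s` and `(l i - 1) + (l j - 1) = l' - 2`) and `T = D'.graft T_c`, WTS (2).
The variables of `T` are variables of the `D j`, `j ∈ J`, so `Ok` follows from GRAFT. -/
def ELIM.Stm : Prop := BASE.Stm → IDX.Stm → DEL.Stm → MIN.Stm → CASETWO.Stm → CASEONE.Stm →
  STAGE.Stm → TAB.Stm → GRAFT.Stm → MGF.Stm → COMB.Stm → WTS.Stm →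
  ∀ (s N n : ℕ) (F : Fn N) (J : Finset (Fin N)) (D : Fin N → DT n) (l : Fin N → ℕ),
    Computes F s → (∀ x x', (∀ j ∈ J, x j = x' j) → F x = F x') →
    (∀ j ∈ J, 1 ≤ l j ∧ l j ≤ 12 ∧ Inv (D j) (l j)) →
    (∀ i ∈ J, ∀ j ∈ J, i ≠ j → Disjoint (D i).vars (D j).vars) →
    ∃ T : DT n, T.Ok ∧ T.vars ⊆ J.biUnion (fun j => (D j).vars) ∧
      (∀ x, T.eval x = F fun j => (D j).eval x) ∧
      T.wt (y ^ 200) 1 1 ≤ y ^ (92 * (s + (∑ j ∈ J, (l j - 1)) + 3))

/-! ### Subtasks: fooling -/

/-- CUTT: truncated trees.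

Proof. Define `cut 0 (leaf a) = leaf a`, `cut 0 (node ..) = leaf b`, `cut (K+1) (leaf a) = leaf a`,
`cut (K+1) (node i l r) = node i (cut K l) (cut K r)`; induction. -/
def CUTT.Stm : Prop := ∀ (n : ℕ) (T : DT n) (K : ℕ) (b : Bool), ∃ T' : DT n, T'.depth ≤ K ∧
  ∀ x, T'.eval x = if T.len x ≤ K then T.eval x else b

/-- TAIL: Markov's inequality.

Proof. `avg (fun x => z ^ T.len x) = T.wt z 1 1` for `T.Ok`, by induction: for `node i l r` the
function `h x = z ^ l.len x` does not depend on `x i` (`i ∉ l.vars`), so its sum over the `x` with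
`x i = false` is half of its sum (the involution `x ↦ update x i (!x i)`). Then
`[K < T.len x] * z ^ (K + 1) ≤ z ^ T.len x`. -/
def TAIL.Stm : Prop := ∀ (n : ℕ) (T : DT n) (z : ℝ) (K : ℕ), T.Ok → 1 ≤ z →
  avg (fun x : Fin n → Bool => if K < T.len x then (1 : ℝ) else 0) ≤ T.wt z 1 1 / z ^ (K + 1)

/-- SPEC: the spectral norm of decision trees.

Proof. Induction on `T`, for all `K`: leaf: `c ∅ = 1` or `0`, all others `0`. Node: if
`[l] = ∑ cl S chi S`, `[r] = ∑ cr S chi S`, then
`[T] = (1 + sg (x i)) / 2 * [l] + (1 - sg (x i)) / 2 * [r]` and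
`sg (x i) * chi S x = chi (symmDiff S {i}) x`, so
`c S = (cl S + cr S) / 2 + (cl (symmDiff S {i}) - cr (symmDiff S {i})) / 2` works:
`∑ |c S| ≤ ∑ |cl S| + ∑ |cr S|` (reindex with the involution `symmDiff · {i}`). -/
def SPEC.Stm : Prop := ∀ (n : ℕ) (T : DT n) (K : ℕ), T.depth ≤ K →
  ∃ c : Finset (Fin n) → ℝ, (∀ x, (if T.eval x = true then (1 : ℝ) else 0) = ∑ S, c S * chi S x) ∧
    ∑ S, |c S| ≤ 2 ^ K

/-- BIAS: the generator has small bias.

Proof. Let `ψ : ZMod 2 → ℝ`, `ψ 0 = 1`, `ψ 1 = -1` (multiplicative), so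
`chi S (gen lam (a, w)) = ψ (lam (a * q w))` with `q w = ∑_{i ∈ S} w ^ i`. For fixed `w` with
`q w ≠ 0` the sum over `a` is `0` (`lam v = 1` for some `v` since `lam ≠ 0`; the translation
`a ↦ a + v / q w` changes the sign of every summand). The polynomial `∑_{i ∈ S} X ^ i` is not `0` and
has degree less than `n`, so `q w = 0` for at most `n` elements `w`; they contribute at most `n |F|`.
Divide by `|F| ^ 2`. -/
def BIAS.Stm : Prop := ∀ (F : Type) [Field F] [Fintype F] (n : ℕ) (lam : F →+ ZMod 2), lam ≠ 0 →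
  ∀ S : Finset (Fin n), S.Nonempty →
    |avg (fun p : F × F => chi S (gen lam p))| ≤ n / Fintype.card F

/-- FOOLT (assembly of CUTT, TAIL, SPEC).

Proof. Let `T₀`, `T₁` be the trees of CUTT for `b = false`, `true`; `[T₀] ≤ [T] ≤ [T₁]` pointwise and
`[T₁] - [T₀] = [K < len]`. For `T'` of depth `≤ K`:
`|avg_ω [T' (D ω)] - avg_x [T' x]| ≤ ∑_S |c S| |avg_ω chi S (D ω) - avg_x chi S x| ≤ 2^K ε` (`S = ∅`
contributes `0`; `avg_x chi S x = 0` for `S ≠ ∅`). So
`avg_ω [T] ≤ avg_ω [T₁] ≤ avg_x [T₁] + 2^K ε ≤ avg_x [T] + avg_x [K < len] + 2^K ε`, and similarly from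
below; TAIL. -/
def FOOLT.Stm : Prop := CUTT.Stm → TAIL.Stm → SPEC.Stm → ∀ (n K : ℕ) (ε z : ℝ) (Ω : Type)
  [Fintype Ω] [Nonempty Ω] (D : Ω → Fin n → Bool) (T : DT n), 0 ≤ ε → 1 ≤ z → T.Ok →
  (∀ S : Finset (Fin n), S.Nonempty → |avg (fun ω => chi S (D ω))| ≤ ε) →
  |avg (fun ω => if T.eval (D ω) = true then (1 : ℝ) else 0) -
    avg (fun x => if T.eval x = true then (1 : ℝ) else 0)| ≤ 2 ^ K * ε + T.wt z 1 1 / z ^ (K + 1)

/-- NUMC: the numbers for circuits of size `m` on `m` inputs.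

Proof. `200 (K + 1) ≥ 93 m`, so the second term is at most `y ^ (276 + 92 m) / y ^ (93 m) =
y ^ 276 / y ^ m ≤ 1/16` (`y ^ (10 ^ 8) ≥ 2` by Bernoulli and `m - 276 ≥ 4 * 10 ^ 8`). First term: `2 ^ q = 2 ^ K * 2 ^ clog * 16` and
`m ≤ 2 ^ clog 2 m`. `2 q ≤ 2 (93 m / 200) + 2 clog 2 m + 8 ≤ 94 m / 100`: `clog 2 m + 4 ≤ m / 200`,
e.g. from `m ≤ 2 ^ (m / 200 - 4)`. -/
def NUMC.Stm : Prop := ∀ m : ℕ, 5 * 10 ^ 8 ≤ m →
  (2 : ℝ) ^ (93 * m / 200) * ((m : ℝ) / ((2 ^ (93 * m / 200 + Nat.clog 2 m + 4) : ℕ) : ℝ)) +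
    y ^ (92 * (m + 0 + 3)) / (y ^ 200) ^ (93 * m / 200 + 1) ≤ 1 / 8 ∧
  100 * (2 * (93 * m / 200 + Nat.clog 2 m + 4)) ≤ 94 * m

end

end Pool.Agent.W945.Lc
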